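import Pool.Agent.Lib.MP_32d917_al_gp.C15

/-!
# MP_32d917_al : the isomorphism problem for finite index subgroups of graph products of free and
free abelian groups

There is one algorithm which decides, for two finite presentations of groups which are isomorphic to
subgroups of finite index of graph products of finitely generated free and free abelian groups over
finite graphs `Γ` such that the right-angled Artin group of `Γ` has a finite outer automorphism group,
whether the groups are isomorphic.
-/

set_option autoImplicit false

namespace Pool.Agent.Results.MP_32d917_al.GraphProducts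

/-- The right-angled Artin group of the graph `Γ`: the generators are the vertices, and adjacent
vertices commute. -/
abbrev RAAG {V : Type} (Γ : SimpleGraph V) : Type :=
  PresentedGroup {r : FreeGroup V | ∃ v w, Γ.Adj v w ∧
    r = FreeGroup.of v * FreeGroup.of w * (FreeGroup.of v)⁻¹ * (FreeGroup.of w)⁻¹}

/-- The outer automorphism group is finite: the inner automorphisms form a subgroup of finite index
of the automorphism group. -/
def FiniteOut (G : Type) [Group G] : Prop :=
  ((MulAut.conj : G →* MulAut G).range).FiniteIndex

/-- The graph `Λ` arises from the graph `Γ` by replacing every vertex `v` by a nonempty graph, the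
fibre of `π` over `v`, which is complete or has no edges; vertices in different fibres are adjacent if
and only if the fibres belong to adjacent vertices of `Γ`. So the right-angled Artin group of `Λ` is the
graph product over `Γ` of the groups of the fibres, which are free abelian or free. -/
def BlowUp {V W : Type} (Γ : SimpleGraph V) (Λ : SimpleGraph W) (π : W → V) : Prop :=
  Function.Surjective π ∧
  (∀ a b, π a ≠ π b → (Λ.Adj a b ↔ Γ.Adj (π a) (π b))) ∧
  ∀ v, (∀ a b, π a = v → π b = v → a ≠ b → Λ.Adj a b) ∨
    (∀ a b, π a = v → π b = v → ¬ Λ.Adj a b)

/-- `G` is isomorphic to a subgroup of finite index of a graph product of finitely generated free and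
free abelian groups over a finite graph `Γ` with at least two vertices, such that the right-angled
Artin group of `Γ` has a finite outer automorphism group. -/
def IsGraphProductSubgroup (G : Type) [Group G] : Prop :=
  ∃ (V W : Type) (_ : Finite V) (_ : Finite W) (Γ : SimpleGraph V) (Λ : SimpleGraph W)
    (π : W → V) (H : Subgroup (RAAG Λ)), (∃ a b : V, a ≠ b) ∧ BlowUp Γ Λ π ∧
    FiniteOut (RAAG Γ) ∧ H.FiniteIndex ∧ Nonempty (G ≃* H)

/-- A finite presentation `(n, R)`: generators `x_0, ..., x_(n-1)` and a list `R` of relators,
each written as a list of letters `(i, true)` for `x_i` and `(i, false)` for its inverse. -/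
abbrev Presentation : Type := ℕ × List (List (ℕ × Bool))

/-- The group defined by a finite presentation (generators of index at least `n` are killed). -/
abbrev Presentation.Grp (P : Presentation) : Type :=
  PresentedGroup ({r | ∃ w ∈ P.2, r = FreeGroup.mk w} ∪ {r | ∃ i, P.1 ≤ i ∧ r = FreeGroup.of i})

theorem cls (G : Type) [Group G] (h : IsGraphProductSubgroup G) : RaagGP.IsCls2 G := by
  obtain ⟨V, W, h1, h2, Γ, Λ, π, H, h3, ⟨h4, h5, h6⟩, h7, h8, h9⟩ := h
  exact ⟨V, W, h1, h2, Γ, Λ, π, H, h3, ⟨h4, h5, h6⟩, h7, h8, h9⟩

/-- The isomorphism problem is solvable for subgroups of finite index of graph products of finitely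
generated free and free abelian groups over graphs whose right-angled Artin group has a finite outer
automorphism group. -/
theorem result : ∃ f : Presentation × Presentation →. Bool, Partrec f ∧
    ∀ P Q : Presentation, IsGraphProductSubgroup P.Grp → IsGraphProductSubgroup Q.Grp →
      ∃ b ∈ f (P, Q), (b = true ↔ Nonempty (P.Grp ≃* Q.Grp)) := by
  obtain ⟨f, hf, h⟩ := RaagGP.final2
  exact ⟨f, hf, fun P Q hP hQ => h P Q (cls _ hP) (cls _ hQ)⟩

end Pool.Agent.Results.MP_32d917_al.GraphProducts
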